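import Pool.Agent.Helper96.ES.Geo
import Pool.Agent.Helper59.ES.Basis

set_option autoImplicit false

/-! # Modules LO, S7 -/

namespace Pool.Agent.Helper96.ES

open Pool.Agent.Helper52.ES
open Pool.Agent.Helper52.Grid
open Pool.Agent.Helper59.ES (Row row rad_ring0 rad_ring1 rad_ring2 rad_ring3 px_ring0 px_ring1
  px_ring2 px_ring3 py_ring0 py_ring1 py_ring2 py_ring3 px_coin0 px_coin1 px_coin2 px_coin3
  py_coin0 py_coin1 py_coin2 py_coin3 rad_coin_le two_pow_le)

theorem dst_hor {p : Par} {a b : Vx} {d : ℝ} (hd : 0 ≤ d) (hx : (p.px b : ℝ) - p.px a = d)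
    (hy : (p.py a : ℝ) = p.py b) : p.dst a b = d := by
  rw [dst_eq, hy, sub_self, ← hx]
  rw [← hx] at hd
  have e : ((p.px a : ℝ) - p.px b) ^ 2 + (0 : ℝ) ^ 2 = ((p.px b : ℝ) - p.px a) ^ 2 := by ring
  rw [e, Real.sqrt_sq hd]

theorem dst_ver {p : Par} {a b : Vx} {d : ℝ} (hd : 0 ≤ d) (hy : (p.py b : ℝ) - p.py a = d)
    (hx : (p.px a : ℝ) = p.px b) : p.dst a b = d := by
  rw [dst_eq, hx, sub_self, ← hy]
  rw [← hy] at hd
  have e : (0 : ℝ) ^ 2 + ((p.py a : ℝ) - p.py b) ^ 2 = ((p.py b : ℝ) - p.py a) ^ 2 := by ring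
  rw [e, Real.sqrt_sq hd]

/-- exact position of a lattice site left of `K0` -/
theorem lat_pos' (p : Par) (x y : ℕ) (hx : x < p.K0) (hy : 1 ≤ y) :
    (p.px (lat x y) : ℝ) = p.u * Xr x ∧ (p.py (lat x y) : ℝ) = p.u * Yr y := by
  constructor
  · have e : p.px (lat x y) = p.X x + (if x = p.K0 ∧ 4 ≤ y ∧ 4 ≤ (y - 4) % 6 then
        p.A ((y - 4) / 6) else 0) := rfl
    rw [e, if_neg (by omega), add_zero, X_cast]
  · have e : p.py (lat x y) = p.Y y - (if x = p.K0 + 1 ∧ 4 ≤ y ∧ (y - 4) % 6 = 3 then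
        p.H ((y - 4) / 6) else 0) := rfl
    rw [e, if_neg (by omega), Nat.sub_zero, Y_cast p y hy]

theorem rad7 (p : Par) (x y : ℕ) (h : p.fd x y = 1) (hr : Par.lring x y = true) :
    p.rad (lat x y) = 7 * p.u := by
  rw [rad_lat, if_pos h, hr, if_pos rfl]

theorem rad8 (p : Par) (x y : ℕ) (h : p.fd x y = 1) (hr : Par.lring x y = false)
    (hy : y = 2 ∨ y % 2 = 1) : p.rad (lat x y) = 8 * p.u := by
  rw [rad_lat, if_pos h, hr, if_neg (by decide), if_pos hy]

theorem lo : specLO := by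
  intro p W hok hnf
  have hu := u_pos hok
  refine ⟨fun x y h => ?_, fun x y h => ?_, fun i hi => ?_⟩
  · obtain ⟨h1, h2, h3, h4, h5⟩ := hnf.oh x y h
    obtain ⟨e1, e2⟩ := lat_pos' p x y (by omega) (by omega)
    obtain ⟨e3, e4⟩ := lat_pos' p (x + 1) y h2 (by omega)
    rcases hnf.ohr x y h with ⟨rfl, r1, r2⟩ | ⟨r0, r1, r2, r3⟩
    · rw [rad7 p 3 y h4 r1, rad7 p 4 y h5 r2]
      refine dst_hor (by linarith) ?_ (by rw [e2, e4])
      rw [e1, e3]
      unfold Xr
      norm_num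
      ring
    · rw [rad8 p x y h4 r1 r3, rad8 p (x + 1) y h5 r2 r3]
      refine dst_hor (by linarith) ?_ (by rw [e2, e4])
      rw [e1, e3]
      unfold Xr
      rw [if_neg (by omega), if_neg (by omega)]
      push_cast
      ring
  · obtain ⟨h1, h2, h3, h4, h5⟩ := hnf.ov x y h
    obtain ⟨e1, e2⟩ := lat_pos' p x y (by omega) (by omega)
    obtain ⟨e3, e4⟩ := lat_pos' p x (y + 1) h2 (by omega)
    rcases hnf.ovr x y h with ⟨r0, r1, r2⟩ | ⟨r0, r1, r2⟩
    · rw [rad7 p x y h4 r1, rad7 p x (y + 1) h5 r2]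
      have h6 : 4 ≤ y := by
        unfold Par.lring at r1
        have := of_decide_eq_true r1
        omega
      refine dst_ver (by linarith) ?_ (by rw [e1, e3])
      rw [e2, e4]
      unfold Yr
      rw [if_neg (by omega), if_neg (by omega)]
      push_cast
      ring
    · rcases Nat.eq_or_lt_of_le h3 with h6 | h6
      · subst h6
        rw [rad8 p x 2 h4 r1 (Or.inl rfl), rad8 p x 3 h5 r2 (Or.inr rfl)]
        refine dst_ver (by linarith) ?_ (by rw [e1, e3])
        rw [e2, e4]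
        unfold Yr
        norm_num
        ring
      · have key : p.rad (lat x y) + p.rad (lat x (y + 1)) = 14 * p.u := by
          rcases Nat.mod_two_eq_zero_or_one y with h7 | h7
          · rw [rad_lat6 x y h4 r1 (by omega) h7, rad8 p x (y + 1) h5 r2 (by omega)]
            ring
          · rw [rad8 p x y h4 r1 (by omega), rad_lat6 x (y + 1) h5 r2 (by omega) (by omega)]
            ring
        rw [key]
        refine dst_ver (by linarith) ?_ (by rw [e1, e3])
        rw [e2, e4]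
        unfold Yr
        rw [if_neg (by omega), if_neg (by omega)]
        push_cast
        ring
  · have r := row hok hi
    have hs := r.s
    have hC := r.C0
    have hA := r.big
    have hW := r.W0
    have q1 : (p.py (ring i 1) : ℝ) = p.Y (7 + 6 * i) := by rw [py_ring1]
    have q2 : (p.py (ring i 2) : ℝ) = p.Y (7 + 6 * i) + p.C i := by
      rw [py_ring2]; push_cast; rfl
    have q3 := py_ring3 hok hi
    have q0 := py_ring0 hok hi
    have x0 : (p.px (ring i 0) : ℝ) = p.X p.K0 := by rw [px_ring0]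
    have x1 : (p.px (ring i 1) : ℝ) = p.X p.K0 := by rw [px_ring1]
    have x2 : (p.px (ring i 2) : ℝ) = p.X p.K0 + p.A i := by rw [px_ring2]; push_cast; rfl
    have x3 : (p.px (ring i 3) : ℝ) = p.X p.K0 + p.A i := by rw [px_ring3]; push_cast; rfl
    refine ⟨?_, ?_, ?_, ?_, ?_⟩
    · rw [rad_ring0, rad_ring1 hok hi]
      refine dst_ver (by linarith) ?_ (by rw [x0, x1])
      rw [q0, q1, r.H]
      ring
    · rw [rad_ring2, rad_ring3, dst_comm]
      refine dst_ver (by linarith [r.CR]) ?_ (by rw [x2, x3])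
      rw [q2, q3, r.H]
      ring
    · rw [rad_ring0, rad_ring3, dst_comm]
      refine dst_hor (by linarith) ?_ (by rw [q0, q3])
      rw [x0, x3]
      ring
    · rw [rad_ring1 hok hi, rad_ring2, dst_eq, x1, x2, q1, q2, Par.om]
      have e : ((p.X p.K0 : ℝ) - (p.X p.K0 + p.A i)) ^ 2 +
          ((p.Y (7 + 6 * i) : ℝ) - (p.Y (7 + 6 * i) + p.C i)) ^ 2 =
          (p.A i : ℝ) ^ 2 + (p.C i : ℝ) ^ 2 := by ring
      rw [e]
      ring
    · rw [Par.om, sub_nonneg]
      exact Real.le_sqrt_of_sq_le r.low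

theorem arm_bd {p : Par} {W : ℕ} (hok : p.Ok W) {a : Vx} {i c : ℕ} (h : p.Arm a i c) :
    p.rad a ≤ 8 / 5 * p.u ∧ (p.Y (7 + 6 * i) : ℝ) - 17 / 4 * p.u ≤ p.py a ∧
      (p.py a : ℝ) ≤ p.Y (7 + 6 * i) + 17 / 4 * p.u := by
  obtain ⟨hi, hc, h⟩ := h
  have r := row hok hi
  have hu := u_pos hok
  have h1 := r.s
  have h2 := r.C0
  have h3 := r.big
  have h4 := r.W0
  have h5 := r.sml
  have h6 := r.CA
  have h7 := r.R1
  have h8 := r.H
  have hc' : c = 0 ∨ c = 1 ∨ c = 2 ∨ c = 3 := by omega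
  rcases h with rfl | ⟨k, _, hk, rfl⟩
  · rcases hc' with rfl | rfl | rfl | rfl
    · rw [rad_ring0, py_ring0 hok hi]
      refine ⟨?_, ?_, ?_⟩ <;> linarith
    · rw [rad_ring1 hok hi, py_ring1]
      refine ⟨?_, ?_, ?_⟩ <;> linarith
    · rw [rad_ring2, py_ring2]
      push_cast
      refine ⟨?_, ?_, ?_⟩ <;> linarith
    · rw [rad_ring3, py_ring3 hok hi]
      refine ⟨?_, ?_, ?_⟩ <;> linarith
  · have k1 : (2 : ℝ) ^ k ≤ 4 * p.u := by exact_mod_cast two_pow_le hk
    have k0 : (0 : ℝ) < 2 ^ k := by positivity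
    refine ⟨(rad_coin_le i c k).trans (by linarith), ?_⟩
    rcases hc' with rfl | rfl | rfl | rfl
    · rw [py_coin0 hok hi hk]
      constructor <;> linarith
    · rw [py_coin1]
      constructor <;> linarith
    · rw [py_coin2]
      push_cast
      constructor <;> linarith
    · rw [py_coin3 hok hi]
      constructor <;> linarith

theorem s7_core {p : Par} {W : ℕ} (hok : p.Ok W) {a b : Vx} {i c j d : ℕ}
    (ha : p.Arm a i c) (hb : p.Arm b j d) (hij : i < j) : p.Far W a b := by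
  obtain ⟨a1, a2, a3⟩ := arm_bd hok ha
  obtain ⟨b1, b2, b3⟩ := arm_bd hok hb
  have hu := u_pos hok
  have hW := W_le hok
  have h1 : (p.Y (7 + 6 * i) : ℝ) + 14 * p.u ≤ p.Y (7 + 6 * j) := by
    rw [Y_cast p _ (by omega), Y_cast p _ (by omega)]
    have h2 := mul_le_mul_of_nonneg_left (Yr_lt (show 7 + 6 * i < 7 + 6 * j by omega)) hu.le
    linarith
  unfold Par.Far
  refine le_trans ?_ (dst_y a b (k := (p.py b : ℝ) - p.py a) ?_)
  · linarith
  · rw [abs_sub_comm]
    exact le_abs_self _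

theorem s7 : specS7 := by
  intro p W hok _ a b i c j d ha hb hij
  rcases Nat.lt_or_gt_of_ne hij with h | h
  · exact s7_core hok ha hb h
  · exact far_comm (s7_core hok hb ha h)

end Pool.Agent.Helper96.ES
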