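import Pool.Agent.Helper96.ES.Geo

set_option autoImplicit false

/-! # Modules S1, S2, S3 -/

namespace Pool.Agent.Helper96.ES

open Pool.Agent.Helper52.ES
open Pool.Agent.Helper52.Grid

theorem s1_core (p : Par) (W : ℕ) (hok : p.Ok W) (hnf : p.NF) (x y x' y' : ℕ)
    (hf : p.fd x y ≠ 0) (hf' : p.fd x' y' ≠ 0) (hO : ¬ p.O (lat x y) (lat x' y'))
    (hlt : x < x' ∨ (x = x' ∧ y < y')) : p.Far W (lat x y) (lat x' y') := by
  obtain ⟨s, t, s0, s1, t0, t1, ex, ey⟩ := lat_pos hok hnf x y hf
  obtain ⟨s', t', s0', s1', t0', t1', ex', ey'⟩ := lat_pos hok hnf x' y' hf'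
  have hu := u_pos hok
  have hW := W_le hok
  have r1 := rad_lat_le hok x y
  have r2 := rad_lat_le hok x' y'
  have big : 17 * (p.u : ℝ) ≤ p.dst (lat x y) (lat x' y') → p.Far W (lat x y) (lat x' y') := by
    intro h
    unfold Par.Far
    linarith
  have sml : p.rad (lat x y) + p.rad (lat x' y') ≤ 13 * p.u →
      (13 + 7 / 8) * (p.u : ℝ) ≤ p.dst (lat x y) (lat x' y') → p.Far W (lat x y) (lat x' y') := by
    intro h h2
    unfold Par.Far
    linarith
  rcases hlt with hx | ⟨rfl, hy⟩
  · by_cases hx2 : x + 2 ≤ x'
    · apply big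
      apply dst_x
      have h1 := mul_le_mul_of_nonneg_left (Xr_lt2 hx2) hu.le
      rw [ex, ex', abs_sub_comm]
      refine le_trans ?_ (le_abs_self _)
      linarith
    · have hx1 : x' = x + 1 := by omega
      subst hx1
      have hX := mul_le_mul_of_nonneg_left (Xr_lt (Nat.lt_succ_self x)) hu.le
      by_cases hy : y = y'
      · subst hy
        refine sml ?_ ?_
        · by_cases h1 : p.fd x y = 1
          · by_cases h2 : p.fd (x + 1) y = 1
            · rcases hnf.adh x y h1 h2 with h3 | ⟨h4, h5, h6, h7⟩
              · exact absurd (Or.inl (Par.O1.hor x y (hnf.one x y h1) h3)) hO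
              · rw [rad_lat6 x y h1 h6 h4 h5, rad_lat6 (x + 1) y h2 h7 h4 h5]
                linarith
            · have := rad_lat_le5 hok (x + 1) y h2
              linarith
          · have := rad_lat_le5 hok x y h1
            linarith
        · apply dst_x
          rw [ex, ex', abs_sub_comm]
          refine le_trans ?_ (le_abs_self _)
          linarith
      · apply big
        refine dst_xy _ _ (c := (13 + 7 / 8) * p.u) (by positivity) ?_ ?_ ?_
        · nlinarith [mul_pos hu hu]
        · rw [ex, ex', abs_sub_comm]
          refine le_trans ?_ (le_abs_self _)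
          linarith
        · rw [ey, ey']
          rcases Nat.lt_or_gt_of_ne hy with h1 | h1
          · have h2 := mul_le_mul_of_nonneg_left (Yr_lt h1) hu.le
            rw [abs_sub_comm]
            refine le_trans ?_ (le_abs_self _)
            linarith
          · have h2 := mul_le_mul_of_nonneg_left (Yr_lt h1) hu.le
            refine le_trans ?_ (le_abs_self _)
            linarith
  · by_cases hy2 : y + 2 ≤ y'
    · apply big
      apply dst_y
      have h1 := mul_le_mul_of_nonneg_left (Yr_lt2 hy2) hu.le
      rw [ey, ey', abs_sub_comm]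
      refine le_trans ?_ (le_abs_self _)
      linarith
    · have hy1 : y' = y + 1 := by omega
      subst hy1
      refine sml ?_ ?_
      · by_cases h1 : p.fd x y = 1
        · by_cases h2 : p.fd x (y + 1) = 1
          · have h3 := hnf.adv x y h1 h2
            exact absurd (Or.inl (Par.O1.ver x y (hnf.one x y h1) h3)) hO
          · have := rad_lat_le5 hok x (y + 1) h2
            linarith
        · have := rad_lat_le5 hok x y h1
          linarith
      · apply dst_y
        have h1 := mul_le_mul_of_nonneg_left (Yr_lt (Nat.lt_succ_self y)) hu.le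
        rw [ey, ey', abs_sub_comm]
        refine le_trans ?_ (le_abs_self _)
        linarith

theorem s1 : specS1 := by
  intro p W hok hnf x y x' y' hf _ hf' _ hne hO
  by_cases hlt : x < x' ∨ (x = x' ∧ y < y')
  · exact s1_core p W hok hnf x y x' y' hf hf' hO hlt
  · refine far_comm (s1_core p W hok hnf x' y' x y hf' hf (fun h => hO (O_symm h)) ?_)
    by_contra h
    push Not at h hlt
    apply hne
    have e1 : x = x' := le_antisymm h.1 hlt.1
    subst e1
    have e2 : y = y' := le_antisymm (h.2 rfl) (hlt.2 rfl)
    rw [e2]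

theorem abs_lb {a b k : ℝ} (h : k ≤ b - a ∨ k ≤ a - b) : k ≤ |a - b| := by
  rcases h with h | h
  · rw [abs_sub_comm]
    exact h.trans (le_abs_self _)
  · exact h.trans (le_abs_self _)

theorem s2 : specS2 := by
  intro p W hok hnf x y x' y' hf _
  obtain ⟨s, t, s0, s1, t0, t1, ex, ey⟩ := lat_pos hok hnf x y hf
  have hu := u_pos hok
  have hW := W_le hok
  have r1 := rad_lat_le hok x y
  constructor
  · intro hh hne hne'
    obtain ⟨t', t0', t1', ex', ey'⟩ := hm_pos hok hnf x' y' hh
    have fin : (13 + 7 / 8) * (p.u : ℝ) ≤ p.dst (lat x y) (hm x' y') →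
        p.Far W (lat x y) (hm x' y') := by
      intro h
      unfold Par.Far
      rw [rad_hm]
      linarith
    apply fin
    by_cases hy : y = y'
    · subst hy
      apply dst_x
      rw [ex, ex']
      apply abs_lb
      have hx1 : x ≠ x' := fun h => hne (by rw [h])
      have hx2 : x ≠ x' + 1 := fun h => hne' (by rw [h])
      rcases Nat.lt_or_gt_of_ne hx1 with h1 | h1
      · left
        have h2 := mul_le_mul_of_nonneg_left (Xr_lt h1) hu.le
        split_ifs <;> linarith
      · right
        have h2 := mul_le_mul_of_nonneg_left (Xr_lt2 (show x' + 2 ≤ x by omega)) hu.le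
        split_ifs <;> linarith
    · apply dst_y
      rw [ey, ey']
      apply abs_lb
      rcases Nat.lt_or_gt_of_ne hy with h1 | h1
      · left
        have h2 := mul_le_mul_of_nonneg_left (Yr_lt h1) hu.le
        linarith
      · right
        have h2 := mul_le_mul_of_nonneg_left (Yr_lt h1) hu.le
        linarith
  · intro hh hne hne'
    obtain ⟨s', s0', s1', ex', ey'⟩ := vm_pos hok hnf x' y' hh
    have fin : (13 + 7 / 8) * (p.u : ℝ) ≤ p.dst (lat x y) (vm x' y') →
        p.Far W (lat x y) (vm x' y') := by
      intro h
      unfold Par.Far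
      rw [rad_vm]
      linarith
    apply fin
    by_cases hx : x = x'
    · subst hx
      apply dst_y
      rw [ey, ey']
      apply abs_lb
      have hy1 : y ≠ y' := fun h => hne (by rw [h])
      have hy2 : y ≠ y' + 1 := fun h => hne' (by rw [h])
      rcases Nat.lt_or_gt_of_ne hy1 with h1 | h1
      · left
        have h2 := mul_le_mul_of_nonneg_left (Yr_lt h1) hu.le
        linarith
      · right
        have h2 := mul_le_mul_of_nonneg_left (Yr_lt2 (show y' + 2 ≤ y by omega)) hu.le
        linarith
    · apply dst_x
      rw [ex, ex']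
      apply abs_lb
      rcases Nat.lt_or_gt_of_ne hx with h1 | h1
      · left
        have h2 := mul_le_mul_of_nonneg_left (Xr_lt h1) hu.le
        linarith
      · right
        have h2 := mul_le_mul_of_nonneg_left (Xr_lt h1) hu.le
        linarith

theorem s3 : specS3 := by
  intro p W hok hnf x y x' y'
  have hu := u_pos hok
  have hW := W_le hok
  have fin : ∀ a b : Vx, p.rad a = 4 * p.u → p.rad b = 4 * p.u →
      (8 + 1 / 8) * (p.u : ℝ) ≤ p.dst a b → p.Far W a b := by
    intro a b ha hb h
    unfold Par.Far
    rw [ha, hb]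
    linarith
  refine ⟨fun hh hh' hne => ?_, fun hh hh' hne => ?_, fun hh hh' => ?_⟩
  · obtain ⟨t, t0, t1, ex, ey⟩ := hm_pos hok hnf x y hh
    obtain ⟨t', t0', t1', ex', ey'⟩ := hm_pos hok hnf x' y' hh'
    refine fin _ _ (rad_hm x y) (rad_hm x' y') ?_
    by_cases hy : y = y'
    · subst hy
      have hx : x ≠ x' := fun h => hne (by rw [h])
      apply dst_x
      rw [ex, ex']
      apply abs_lb
      rcases Nat.lt_or_gt_of_ne hx with h1 | h1
      · left
        have h2 := mul_le_mul_of_nonneg_left (Xr_lt h1) hu.le
        split_ifs <;> linarith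
      · right
        have h2 := mul_le_mul_of_nonneg_left (Xr_lt h1) hu.le
        split_ifs <;> linarith
    · apply dst_y
      rw [ey, ey']
      apply abs_lb
      rcases Nat.lt_or_gt_of_ne hy with h1 | h1
      · left
        have h2 := mul_le_mul_of_nonneg_left (Yr_lt h1) hu.le
        linarith
      · right
        have h2 := mul_le_mul_of_nonneg_left (Yr_lt h1) hu.le
        linarith
  · obtain ⟨s, s0, s1, ex, ey⟩ := vm_pos hok hnf x y hh
    obtain ⟨s', s0', s1', ex', ey'⟩ := vm_pos hok hnf x' y' hh'
    refine fin _ _ (rad_vm x y) (rad_vm x' y') ?_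
    by_cases hx : x = x'
    · subst hx
      have hy : y ≠ y' := fun h => hne (by rw [h])
      apply dst_y
      rw [ey, ey']
      apply abs_lb
      rcases Nat.lt_or_gt_of_ne hy with h1 | h1
      · left
        have h2 := mul_le_mul_of_nonneg_left (Yr_lt h1) hu.le
        linarith
      · right
        have h2 := mul_le_mul_of_nonneg_left (Yr_lt h1) hu.le
        linarith
    · apply dst_x
      rw [ex, ex']
      apply abs_lb
      rcases Nat.lt_or_gt_of_ne hx with h1 | h1
      · left
        have h2 := mul_le_mul_of_nonneg_left (Xr_lt h1) hu.le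
        linarith
      · right
        have h2 := mul_le_mul_of_nonneg_left (Xr_lt h1) hu.le
        linarith
  · obtain ⟨t, t0, t1, ex, ey⟩ := hm_pos hok hnf x y hh
    obtain ⟨s', s0', s1', ex', ey'⟩ := vm_pos hok hnf x' y' hh'
    refine fin _ _ (rad_hm x y) (rad_vm x' y') ?_
    refine dst_xy _ _ (c := (6 + 7 / 8) * p.u) (by positivity) ?_ ?_ ?_
    · nlinarith [mul_pos hu hu]
    · rw [ex, ex']
      apply abs_lb
      rcases Nat.lt_or_ge x x' with h1 | h1
      · left
        split_ifs with h3
        · have h2 := mul_le_mul_of_nonneg_left (Xr_lt h1) hu.le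
          linarith
        · have h2 := mul_le_mul_of_nonneg_left (Xr_lt' h1 h3) hu.le
          linarith
      · right
        have h2 := mul_le_mul_of_nonneg_left (Xr_le h1) hu.le
        split_ifs <;> linarith
    · rw [ey, ey']
      apply abs_lb
      rcases Nat.lt_or_ge y' y with h1 | h1
      · right
        have h2 := mul_le_mul_of_nonneg_left (Yr_lt h1) hu.le
        linarith
      · left
        have h2 := mul_le_mul_of_nonneg_left (Yr_le h1) hu.le
        linarith

end Pool.Agent.Helper96.ES
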