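import Pool.Agent.Helper52.ES.Spec

set_option autoImplicit false

/-! # Coordinates, for the modules S1, S2, S3 -/

namespace Pool.Agent.Helper96.ES

open Pool.Agent.Helper52.ES
open Pool.Agent.Helper52.Grid
open Pool.Agent.Helper52.ETSP (edist)

variable (p : Par) {W : ℕ}

/-- coordinates in the unit `u` -/
noncomputable def Xr (x : ℕ) : ℝ := 16 * x + (if x ≤ 3 then 2 else 0)
/-- coordinates in the unit `u` -/
noncomputable def Yr (y : ℕ) : ℝ := 14 * y - (if y ≤ 2 then 2 else 0)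

theorem X_cast (x : ℕ) : (p.X x : ℝ) = p.u * Xr x := by
  unfold Par.X Xr
  split_ifs <;> push_cast <;> ring

theorem Y_cast (y : ℕ) (hy : 1 ≤ y) : (p.Y y : ℝ) = p.u * Yr y := by
  unfold Par.Y Yr
  have h1 : 2 * p.u ≤ 14 * p.u * y := by nlinarith [Nat.zero_le p.u]
  split_ifs
  · rw [Nat.cast_sub h1]
    push_cast
    ring
  · rw [Nat.sub_zero]
    push_cast
    ring

theorem Xr_lt {x x' : ℕ} (h : x < x') : Xr x + 14 ≤ Xr x' := by
  have h1 : (x : ℝ) + 1 ≤ x' := by exact_mod_cast h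
  unfold Xr
  split_ifs <;> linarith

theorem Xr_le {x x' : ℕ} (h : x ≤ x') : Xr x ≤ Xr x' := by
  rcases Nat.lt_or_eq_of_le h with h1 | h1
  · linarith [Xr_lt h1]
  · rw [h1]

theorem Xr_lt2 {x x' : ℕ} (h : x + 2 ≤ x') : Xr x + 30 ≤ Xr x' := by
  have h1 : (x : ℝ) + 2 ≤ x' := by exact_mod_cast h
  unfold Xr
  split_ifs <;> linarith

theorem Xr_lt' {x x' : ℕ} (h : x < x') (h3 : x ≠ 3) : Xr x + 16 ≤ Xr x' := by
  have h1 : (x : ℝ) + 1 ≤ x' := by exact_mod_cast h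
  unfold Xr
  split_ifs with ha hb hb
  · linarith
  · have h2 : (x : ℝ) + 2 ≤ x' := by
      have : x + 2 ≤ x' := by omega
      exact_mod_cast this
    linarith
  · exfalso; omega
  · linarith

theorem Yr_lt {y y' : ℕ} (h : y < y') : Yr y + 14 ≤ Yr y' := by
  have h1 : (y : ℝ) + 1 ≤ y' := by exact_mod_cast h
  unfold Yr
  split_ifs <;> linarith

theorem Yr_le {y y' : ℕ} (h : y ≤ y') : Yr y ≤ Yr y' := by
  rcases Nat.lt_or_eq_of_le h with h1 | h1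
  · linarith [Yr_lt h1]
  · rw [h1]

theorem Yr_lt2 {y y' : ℕ} (h : y + 2 ≤ y') : Yr y + 28 ≤ Yr y' := by
  have h1 : (y : ℝ) + 2 ≤ y' := by exact_mod_cast h
  unfold Yr
  split_ifs <;> linarith

variable {p}

theorem H_le (hok : p.Ok W) {i : ℕ} (hi : i < p.rows) : p.H i ≤ p.A i := by
  have h1 := hok.par i hi
  have h2 := hok.low i hi
  have h3 : p.R i ≤ p.A i + p.C i := by
    by_contra h
    push Not at h
    nlinarith
  have h4 := hok.CA i hi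
  omega

theorem A_le (hok : p.Ok W) {i : ℕ} (hi : i < p.rows) : (p.A i : ℝ) ≤ p.u / 8 := by
  have h1 : (8 : ℝ) * p.A i ≤ p.u := by exact_mod_cast hok.sml i hi
  linarith

theorem Hr_le (hok : p.Ok W) {i : ℕ} (hi : i < p.rows) : (p.H i : ℝ) ≤ p.u / 8 := by
  have h1 : (p.H i : ℝ) ≤ p.A i := by exact_mod_cast H_le hok hi
  linarith [A_le hok hi]

theorem W_le (hok : p.Ok W) : (W : ℝ) + 1 ≤ p.u / 800 := by
  have h0 : 0 < p.rows := Nat.succ_pos _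
  have h1 : (100 : ℝ) * (W + 2) ≤ p.A 0 := by exact_mod_cast hok.big 0 h0
  linarith [A_le hok h0]

theorem u_pos (hok : p.Ok W) : (0 : ℝ) < p.u := by
  have h := W_le hok
  have h2 : (0 : ℝ) ≤ W := Nat.cast_nonneg W
  linarith

theorem lat_pos (hok : p.Ok W) (hnf : p.NF) (x y : ℕ) (h : p.fd x y ≠ 0) : ∃ s t : ℝ, 0 ≤ s ∧
    s ≤ p.u / 8 ∧ 0 ≤ t ∧ t ≤ p.u / 8 ∧ (p.px (lat x y) : ℝ) = p.u * Xr x + s ∧
    (p.py (lat x y) : ℝ) = p.u * Yr y - t := by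
  obtain ⟨hx1, hx2, hy1, hy2⟩ := hnf.box x y h
  have hu := u_pos hok
  refine ⟨(if x = p.K0 ∧ 4 ≤ y ∧ 4 ≤ (y - 4) % 6 then (p.A ((y - 4) / 6) : ℝ) else 0),
    (if x = p.K0 + 1 ∧ 4 ≤ y ∧ (y - 4) % 6 = 3 then (p.H ((y - 4) / 6) : ℝ) else 0),
    ?_, ?_, ?_, ?_, ?_, ?_⟩
  · split_ifs
    · exact Nat.cast_nonneg _
    · exact le_rfl
  · split_ifs
    · exact A_le hok (by omega)
    · positivity
  · split_ifs
    · exact Nat.cast_nonneg _
    · exact le_rfl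
  · split_ifs
    · exact Hr_le hok (by omega)
    · positivity
  · have e : p.px (lat x y) = p.X x + (if x = p.K0 ∧ 4 ≤ y ∧ 4 ≤ (y - 4) % 6 then
        p.A ((y - 4) / 6) else 0) := rfl
    rw [e, Nat.cast_add, X_cast, Nat.cast_ite, Nat.cast_zero]
  · have e : p.py (lat x y) = p.Y y - (if x = p.K0 + 1 ∧ 4 ≤ y ∧ (y - 4) % 6 = 3 then
        p.H ((y - 4) / 6) else 0) := rfl
    rw [e, Nat.cast_sub, Y_cast p y hy1, Nat.cast_ite, Nat.cast_zero]
    have h0 : 0 < p.rows := Nat.succ_pos _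
    have h1 : (12 : ℝ) * p.u ≤ (p.Y y : ℝ) := by
      rw [Y_cast p y hy1]
      have h2 : (1 : ℝ) ≤ y := by exact_mod_cast hy1
      have h3 : (12 : ℝ) ≤ Yr y := by
        unfold Yr
        split_ifs <;> linarith
      nlinarith
    split_ifs with hc
    · have h2 := Hr_le hok (i := (y - 4) / 6) (by omega)
      have h3 : (p.H ((y - 4) / 6) : ℝ) ≤ (p.Y y : ℝ) := by linarith
      exact_mod_cast h3
    · exact Nat.zero_le _

theorem hm_pos (hok : p.Ok W) (hnf : p.NF) (x y : ℕ) (h : p.h x y = 0) : ∃ t : ℝ,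
    0 ≤ t ∧ t ≤ p.u / 8 ∧
    (p.px (hm x y) : ℝ) = p.u * (Xr x + if x = 3 then 7 else 8) ∧
    (p.py (hm x y) : ℝ) = p.u * Yr y - t := by
  obtain ⟨hx1, hx2, hy1, hy2⟩ := hnf.boxh x y h
  have hu := u_pos hok
  refine ⟨(if x = p.K0 ∧ 4 ≤ y then (p.H ((y - 4) / 6) : ℝ) else 0), ?_, ?_, ?_, ?_⟩
  · split_ifs
    · exact Nat.cast_nonneg _
    · exact le_rfl
  · split_ifs
    · exact Hr_le hok (by omega)
    · positivity
  · have e : p.px (hm x y) = p.X x + (if x = 3 then 7 * p.u else 8 * p.u) := rfl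
    rw [e, Nat.cast_add, X_cast, Nat.cast_ite]
    split_ifs <;> push_cast <;> ring
  · have e : p.py (hm x y) = p.Y y - (if x = p.K0 ∧ 4 ≤ y then
        p.H ((y - 4) / 6) else 0) := rfl
    rw [e, Nat.cast_sub, Y_cast p y hy1, Nat.cast_ite, Nat.cast_zero]
    have h1 : (12 : ℝ) * p.u ≤ (p.Y y : ℝ) := by
      rw [Y_cast p y hy1]
      have h2 : (1 : ℝ) ≤ y := by exact_mod_cast hy1
      have h3 : (12 : ℝ) ≤ Yr y := by
        unfold Yr
        split_ifs <;> linarith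
      nlinarith
    split_ifs with hc
    · have h2 := Hr_le hok (i := (y - 4) / 6) (by omega)
      have h3 : (p.H ((y - 4) / 6) : ℝ) ≤ (p.Y y : ℝ) := by linarith
      exact_mod_cast h3
    · exact Nat.zero_le _

theorem vm_pos (hok : p.Ok W) (hnf : p.NF) (x y : ℕ) (h : p.v x y = 0) : ∃ s : ℝ,
    0 ≤ s ∧ s ≤ p.u / 8 ∧
    (p.px (vm x y) : ℝ) = p.u * Xr x + s ∧
    (p.py (vm x y) : ℝ) = p.u * (Yr y + 7) := by
  obtain ⟨hx1, hx2, hy1, hy2⟩ := hnf.boxv x y h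
  have hu := u_pos hok
  refine ⟨(if x = p.K0 ∧ 4 ≤ y ∧ 3 ≤ (y - 4) % 6 then (p.A ((y - 4) / 6) : ℝ) else 0),
    ?_, ?_, ?_, ?_⟩
  · split_ifs
    · exact Nat.cast_nonneg _
    · exact le_rfl
  · split_ifs
    · exact A_le hok (by omega)
    · positivity
  · have e : p.px (vm x y) = p.X x + (if x = p.K0 ∧ 4 ≤ y ∧ 3 ≤ (y - 4) % 6 then
        p.A ((y - 4) / 6) else 0) := rfl
    rw [e, Nat.cast_add, X_cast, Nat.cast_ite, Nat.cast_zero]
  · have e : p.py (vm x y) = p.Y y + 7 * p.u := rfl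
    rw [e, Nat.cast_add, Y_cast p y hy1]
    push_cast
    ring

/-! ### distances -/

theorem dst_eq (a b : Vx) : p.dst a b =
    Real.sqrt (((p.px a : ℝ) - p.px b) ^ 2 + ((p.py a : ℝ) - p.py b) ^ 2) := by
  unfold Par.dst Pool.Agent.Helper52.ETSP.edist Par.pos
  push_cast
  rfl

theorem dst_x (a b : Vx) {k : ℝ} (h : k ≤ |(p.px a : ℝ) - p.px b|) : k ≤ p.dst a b := by
  rw [dst_eq]
  refine h.trans (Real.abs_le_sqrt ?_)
  nlinarith [sq_nonneg ((p.py a : ℝ) - p.py b)]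

theorem dst_y (a b : Vx) {k : ℝ} (h : k ≤ |(p.py a : ℝ) - p.py b|) : k ≤ p.dst a b := by
  rw [dst_eq]
  refine h.trans (Real.abs_le_sqrt ?_)
  nlinarith [sq_nonneg ((p.px a : ℝ) - p.px b)]

theorem dst_xy (a b : Vx) {c k : ℝ} (hc : 0 ≤ c) (hk : k ^ 2 ≤ 2 * c ^ 2)
    (hx : c ≤ |(p.px a : ℝ) - p.px b|) (hy : c ≤ |(p.py a : ℝ) - p.py b|) : k ≤ p.dst a b := by
  rw [dst_eq]
  refine (le_abs_self k).trans (Real.abs_le_sqrt ?_)
  have h1 : c ^ 2 ≤ ((p.px a : ℝ) - p.px b) ^ 2 := by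
    rw [← sq_abs ((p.px a : ℝ) - p.px b)]
    exact pow_le_pow_left₀ hc hx 2
  have h2 : c ^ 2 ≤ ((p.py a : ℝ) - p.py b) ^ 2 := by
    rw [← sq_abs ((p.py a : ℝ) - p.py b)]
    exact pow_le_pow_left₀ hc hy 2
  linarith

theorem dst_comm (a b : Vx) : p.dst a b = p.dst b a := by
  rw [dst_eq, dst_eq]
  congr 1
  ring

theorem far_comm {a b : Vx} (h : p.Far W a b) : p.Far W b a := by
  unfold Par.Far at h ⊢
  rw [dst_comm]
  linarith

/-! ### radii -/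

theorem rad_lat (x y : ℕ) : p.rad (lat x y) =
    if p.fd x y = 1 then
      (if Par.lring x y then 7 * (p.u : ℝ)
      else if y = 2 ∨ y % 2 = 1 then 8 * (p.u : ℝ) else 6 * (p.u : ℝ))
    else if x = p.K0 ∧ 4 ≤ y ∧ (y - 4) % 6 = 5 then 5 * (p.u : ℝ) else 4 * (p.u : ℝ) := rfl

theorem rad_lat_le (hok : p.Ok W) (x y : ℕ) : p.rad (lat x y) ≤ 8 * p.u := by
  have := u_pos hok
  rw [rad_lat]
  split_ifs <;> linarith

theorem rad_lat_le5 (hok : p.Ok W) (x y : ℕ) (h : p.fd x y ≠ 1) : p.rad (lat x y) ≤ 5 * p.u := by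
  have := u_pos hok
  rw [rad_lat, if_neg h]
  split_ifs <;> linarith

theorem rad_lat6 (x y : ℕ) (h : p.fd x y = 1) (hr : Par.lring x y = false)
    (h4 : 4 ≤ y) (h2 : y % 2 = 0) : p.rad (lat x y) = 6 * p.u := by
  rw [rad_lat, if_pos h, hr, if_neg (by decide), if_neg (by omega)]

theorem rad_hm (x y : ℕ) : p.rad (hm x y) = 4 * p.u := rfl

theorem rad_vm (x y : ℕ) : p.rad (vm x y) = 4 * p.u := rfl

theorem O_symm {a b : Vx} (h : p.O a b) : p.O b a := h.symm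

end Pool.Agent.Helper96.ES
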